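import Mathlib

/-!
# Tilings of the separable Hilbert space are never Voronoi or Laguerre tilings

Let `H` be an infinite-dimensional separable real Hilbert space, with an equivalent inner product `B`. Let
`(T a)`, `a ∈ A`, be a tiling of `H` by convex bodies with `T a` contained in the ball of radius `R` with
centre `a`, for example the translates `T a = a + K` of a bounded convex body `K`. Then there is no weight function
`w` such that `T a` consists of points `x` for which `B (x - a) (x - a) + w a` is minimal among all `a ∈ A`.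
In particular (`w = 0`) the tiling is not the Voronoi tiling of `A` for the norm given by `B`.
-/

set_option autoImplicit false

namespace Pool.Agent.Results.MP_3191e9_an.LaguerreTilings

open Filter Topology Metric
open scoped RealInnerProductSpace

/-- `B` is a (symmetric) inner product on `H` whose norm is equivalent to the norm of `H`. -/
structure IsEquivalentInner {H : Type*} [NormedAddCommGroup H] [InnerProductSpace ℝ H]
    (B : H →L[ℝ] H →L[ℝ] ℝ) : Prop where
  symm : ∀ x y, B x y = B y x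
  pos : ∃ c : ℝ, 0 < c ∧ ∀ x, c * ‖x‖ ^ 2 ≤ B x x

/-- The convex bodies `T a`, `a ∈ A`, form a tiling of `H`, and `T a` is contained in the ball with centre `a` and a
fixed radius. -/
structure IsBoundedTiling {H : Type*} [NormedAddCommGroup H] [InnerProductSpace ℝ H]
    (A : Set H) (T : H → Set H) : Prop where
  body : ∀ a ∈ A, Convex ℝ (T a) ∧ IsClosed (T a) ∧ (interior (T a)).Nonempty
  bounded : ∃ R : ℝ, ∀ a ∈ A, T a ⊆ closedBall a R
  cover : ∀ x, ∃ a ∈ A, x ∈ T a
  disj : ∀ a ∈ A, ∀ b ∈ A, a ≠ b → Disjoint (interior (T a)) (interior (T b))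

/-- Every point `x` of `T a` minimises the power `B (x - b) (x - b) + w b`, `b ∈ A`, at `b = a`: the tiling is the
Laguerre tiling (power diagram) of the sites `A` with the weights `w`, for the inner product `B`; for `w = 0` this is
the Voronoi tiling of `A`. -/
def IsLaguerre {H : Type*} [NormedAddCommGroup H] [InnerProductSpace ℝ H]
    (B : H →L[ℝ] H →L[ℝ] ℝ) (w : H → ℝ) (A : Set H) (T : H → Set H) : Prop :=
  ∀ a ∈ A, ∀ x ∈ T a, ∀ b ∈ A, B (x - a) (x - a) + w a ≤ B (x - b) (x - b) + w b

section core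

variable {H : Type*} [NormedAddCommGroup H] [InnerProductSpace ℝ H] [CompleteSpace H]

/-- a unit vector orthogonal to a finite set -/
lemma exists_unit (hinf : ¬ FiniteDimensional ℝ H) (F : Set H) (hF : F.Finite) :
    ∃ y : H, ‖y‖ = 1 ∧ ∀ x ∈ F, ⟪x, y⟫ = 0 := by
  have hfd : FiniteDimensional ℝ (Submodule.span ℝ F) := FiniteDimensional.span_of_finite ℝ hF
  have hne : (Submodule.span ℝ F)ᗮ ≠ ⊥ := by
    intro h
    rw [Submodule.orthogonal_eq_bot_iff] at h
    apply hinf
    have : FiniteDimensional ℝ (⊤ : Submodule ℝ H) := by rw [← h]; exact hfd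
    exact Module.finite_def.2 (Module.Finite.iff_fg.1 this)
  obtain ⟨z, hz, hz0⟩ := Submodule.exists_mem_ne_zero_of_ne_bot hne
  have hzn : ‖z‖ ≠ 0 := norm_ne_zero_iff.2 hz0
  refine ⟨(‖z‖⁻¹ : ℝ) • z, ?_, ?_⟩
  · rw [norm_smul, norm_inv, norm_norm, inv_mul_cancel₀ hzn]
  · intro x hx
    rw [inner_smul_right, Submodule.inner_right_of_mem_orthogonal (Submodule.subset_span hx) hz,
      mul_zero]

/-- an orthonormal sequence with `e n` orthogonal to `s 0, …, s n` -/
lemma exists_orthonormal (hinf : ¬ FiniteDimensional ℝ H) (s : ℕ → H) :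
    ∃ e : ℕ → H, Orthonormal ℝ e ∧ ∀ i n, i ≤ n → ⟪s i, e n⟫ = 0 := by
  classical
  obtain ⟨f, hf1, hf2⟩ := exists_seq_of_forall_finset_exists
    (fun p : ℕ × H => ‖p.2‖ = 1 ∧ ∀ i ≤ p.1, ⟪s i, p.2⟫ = 0)
    (fun p p' : ℕ × H => p.1 < p'.1 ∧ ⟪p.2, p'.2⟫ = 0) (by
      intro S _
      obtain ⟨y, hy1, hy2⟩ := exists_unit hinf
        ((S.image (fun p => p.2) ∪ (Finset.range (S.sup (fun p => p.1) + 2)).image s : Finset H) : Set H)
        (Finset.finite_toSet _)
      refine ⟨(S.sup (fun p => p.1) + 1, y), ⟨hy1, fun i hi => hy2 _ ?_⟩, fun p hp => ⟨?_, hy2 _ ?_⟩⟩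
      · rw [Finset.mem_coe, Finset.mem_union]
        right
        exact Finset.mem_image_of_mem _ (Finset.mem_range.2 (by omega))
      · have : p.1 ≤ S.sup (fun p => p.1) := Finset.le_sup (f := fun p : ℕ × H => p.1) hp
        show p.1 < S.sup (fun p => p.1) + 1
        omega
      · rw [Finset.mem_coe, Finset.mem_union]
        left
        exact Finset.mem_image_of_mem _ hp)
  have hk : ∀ n, n ≤ (f n).1 := by
    intro n
    induction n with
    | zero => exact Nat.zero_le _
    | succ n ih => exact Nat.succ_le_of_lt (lt_of_le_of_lt ih (hf2 n (n + 1) (Nat.lt_succ_self n)).1)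
  refine ⟨fun n => (f n).2, ⟨fun n => (hf1 n).1, ?_⟩, fun i n hin => (hf1 n).2 i (hin.trans (hk n))⟩
  intro m n hmn
  rcases lt_or_gt_of_ne hmn with h | h
  · exact (hf2 m n h).2
  · show ⟪(f m).2, (f n).2⟫ = 0
    rw [real_inner_comm]
    exact (hf2 n m h).2

/-- The main lemma: a continuous function with a bounded sublevel set is somewhere on the level strictly larger than
all of a given sequence of affine minorants. -/
lemma core (hinf : ¬ FiniteDimensional ℝ H) (g : H → ℝ) (hg : Continuous g) (c M : ℝ) (x0 : H)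
    (h0 : g x0 < c) (hM : ∀ x, g x ≤ c → ‖x‖ ≤ M) (s : ℕ → H) (w : ℕ → ℝ)
    (hle : ∀ n x, ⟪s n, x⟫ - w n ≤ g x) :
    ∃ x, g x = c ∧ ∀ n, ⟪s n, x⟫ - w n < c := by
  classical
  obtain ⟨e, he, hse⟩ := exists_orthonormal hinf s
  -- one step
  have hstep : ∀ (n : ℕ) (x : H), g x < c → ∃ t : ℝ, g (x + t • e n) = (g x + c) / 2 := by
    intro n x hx
    have hM0 : 0 ≤ M := (norm_nonneg _).trans (hM x hx.le)
    set T : ℝ := ‖x‖ + M + 1 with hT
    have hT0 : 0 ≤ T := by positivity
    have hcont : Continuous fun t : ℝ => g (x + t • e n) := by fun_prop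
    have h1 : c < g (x + T • e n) := by
      by_contra hle'
      push Not at hle'
      have h2 := hM _ hle'
      have h3 : ‖T • e n‖ = T := by
        rw [norm_smul, he.1 n, mul_one, Real.norm_eq_abs, abs_of_nonneg hT0]
      have h4 : ‖T • e n‖ ≤ ‖x + T • e n‖ + ‖x‖ := by
        have := norm_sub_le (x + T • e n) x
        rwa [add_sub_cancel_left] at this
      rw [h3] at h4
      linarith
    have h5 := intermediate_value_Icc hT0 hcont.continuousOn
    have h6 : (g x + c) / 2 ∈ Set.Icc (g (x + (0:ℝ) • e n)) (g (x + T • e n)) := by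
      rw [zero_smul, add_zero]
      constructor <;> linarith
    obtain ⟨t, _, ht⟩ := h5 h6
    exact ⟨t, ht⟩
  choose! t ht using hstep
  let X : ℕ → H := fun n => Nat.rec x0 (fun n x => x + t n x • e n) n
  have hX0 : X 0 = x0 := rfl
  have hXs : ∀ n, X (n + 1) = X n + t n (X n) • e n := fun n => rfl
  have hXc : ∀ n, g (X n) < c ∧ c - g (X n) = (c - g x0) * (1 / 2) ^ n := by
    intro n
    induction n with
    | zero => exact ⟨h0, by rw [hX0]; ring⟩
    | succ n ih =>
      have h1 := ht n (X n) ih.1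
      rw [hXs, h1]
      refine ⟨by linarith [ih.1], ?_⟩
      rw [pow_succ, ← mul_assoc, ← ih.2]
      ring
  have hXsum : ∀ n, X n = x0 + ∑ k ∈ Finset.range n, t k (X k) • e k := by
    intro n
    induction n with
    | zero => rw [hX0, Finset.sum_range_zero, add_zero]
    | succ n ih => rw [hXs, Finset.sum_range_succ, ← add_assoc, ← ih]
  have hnorm : ∀ n, ∑ k ∈ Finset.range n, t k (X k) ^ 2 = ‖X n - x0‖ ^ 2 := by
    intro n
    rw [hXsum n, add_sub_cancel_left, ← real_inner_self_eq_norm_sq,
      he.inner_sum (fun k => t k (X k)) (fun k => t k (X k))]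
    refine Finset.sum_congr rfl fun k _ => ?_
    simp [sq]
  have hsq : Summable fun k => t k (X k) ^ 2 := by
    refine summable_of_sum_range_le (c := (M + M) ^ 2) (fun k => sq_nonneg _) fun n => ?_
    rw [hnorm n]
    apply pow_le_pow_left₀ (norm_nonneg _)
    exact (norm_sub_le _ _).trans (add_le_add (hM _ (hXc n).1.le) (hM _ h0.le))
  have hsum : Summable fun k => t k (X k) • e k := by
    have h1 := (he.orthogonalFamily).summable_iff_norm_sq_summable (fun k => t k (X k))
    have h2 : Summable fun k => ‖t k (X k)‖ ^ 2 := by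
      simpa only [Real.norm_eq_abs, sq_abs] using hsq
    have h3 := h1.2 h2
    simpa using h3
  have hlim : Tendsto X atTop (𝓝 (x0 + ∑' k, t k (X k) • e k)) := by
    have h1 := hsum.hasSum.tendsto_sum_nat.const_add x0
    refine h1.congr fun n => ?_
    rw [hXsum n]
  set x := x0 + ∑' k, t k (X k) • e k with hx
  refine ⟨x, ?_, ?_⟩
  · have h1 : Tendsto (fun n => g (X n)) atTop (𝓝 (g x)) := (hg.tendsto x).comp hlim
    have h2 : Tendsto (fun n : ℕ => c - (c - g x0) * (1 / 2) ^ n) atTop (𝓝 (c - (c - g x0) * 0)) :=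
      ((tendsto_pow_atTop_nhds_zero_of_lt_one (by norm_num) (by norm_num)).const_mul _).const_sub _
    rw [mul_zero, sub_zero] at h2
    have h3 : (fun n => g (X n)) = fun n : ℕ => c - (c - g x0) * (1 / 2) ^ n := by
      funext n
      rw [← (hXc n).2]; ring
    rw [h3] at h1
    exact tendsto_nhds_unique h1 h2
  · intro i
    have h1 : ∀ m, ⟪s i, X (i + m)⟫ = ⟪s i, X i⟫ := by
      intro m
      induction m with
      | zero => rfl
      | succ m ih =>
        have : i + (m + 1) = (i + m) + 1 := by omega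
        rw [this, hXs, inner_add_right, inner_smul_right, hse i (i + m) (by omega), mul_zero, add_zero, ih]
    have h2 : Tendsto (fun m => ⟪s i, X (i + m)⟫) atTop (𝓝 ⟪s i, x⟫) := by
      have h3 : Tendsto (fun m => X (i + m)) atTop (𝓝 x) := by
        have := (tendsto_add_atTop_iff_nat i).2 hlim
        refine this.congr fun m => ?_
        rw [add_comm]
      exact (continuous_const.inner continuous_id).continuousAt.tendsto.comp h3
    have h4 : ⟪s i, x⟫ = ⟪s i, X i⟫ := by
      refine tendsto_nhds_unique h2 ?_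
      simp_rw [h1]
      exact tendsto_const_nhds
    rw [h4]
    exact (hle i (X i)).trans_lt (hXc i).1

/-- Countably many sites cannot have uniformly bounded Laguerre cells which cover `H`. -/
lemma no_power (hinf : ¬ FiniteDimensional ℝ H) (B : H →L[ℝ] H →L[ℝ] ℝ) (hB : IsEquivalentInner B)
    (w : H → ℝ) (A : Set H) (hA : A.Countable) (R : ℝ)
    (h : ∀ x, ∃ a ∈ A, ‖x - a‖ ≤ R ∧ ∀ b ∈ A, B (x - a) (x - a) + w a ≤ B (x - b) (x - b) + w b) :
    False := by
  classical
  choose a haA haR hamin using h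
  have hR0 : 0 ≤ R := (norm_nonneg _).trans (haR 0)
  obtain ⟨c0, hc0, hpos⟩ := hB.pos
  have hexp : ∀ x b, B (x - b) (x - b) = B x x - 2 * B x b + B b b := by
    intro x b
    simp only [map_sub, ContinuousLinearMap.sub_apply]
    rw [hB.symm b x]
    ring
  -- the function
  set ℓ : H → H → ℝ := fun b x => 2 * B x b - (B b b + w b) with hℓ
  set g : H → ℝ := fun x => ℓ (a x) x with hgdef
  have hge : ∀ x, ∀ b ∈ A, ℓ b x ≤ g x := by
    intro x b hb
    have h1 := hamin x b hb
    rw [hexp, hexp] at h1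
    simp only [hgdef, hℓ]
    linarith
  set N : ℝ := ‖B‖ with hN
  have hN0 : 0 ≤ N := norm_nonneg B
  have hBle : ∀ x y, |B x y| ≤ N * ‖x‖ * ‖y‖ := fun x y => B.le_opNorm₂ x y
  have hanorm : ∀ x, ‖a x‖ ≤ ‖x‖ + R := by
    intro x
    have h1 : ‖a x‖ ≤ ‖x‖ + ‖x - a x‖ := by
      have := norm_sub_le x (x - a x)
      rwa [sub_sub_cancel] at this
    linarith [haR x]
  have hlip : ∀ x y, g x - g y ≤ 2 * N * (‖x‖ + R) * ‖x - y‖ := by
    intro x y
    have h1 := hge y (a x) (haA x)
    have h2 : g x - ℓ (a x) y = 2 * B (x - y) (a x) := by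
      simp only [hgdef, hℓ, map_sub, ContinuousLinearMap.sub_apply]
      ring
    have h3 : B (x - y) (a x) ≤ N * ‖x - y‖ * (‖x‖ + R) := by
      refine (le_abs_self _).trans ((hBle _ _).trans ?_)
      exact mul_le_mul_of_nonneg_left (hanorm x) (by positivity)
    have h4 : g x - g y ≤ 2 * B (x - y) (a x) := by linarith
    calc g x - g y ≤ 2 * B (x - y) (a x) := h4
      _ ≤ 2 * (N * ‖x - y‖ * (‖x‖ + R)) := by linarith
      _ = _ := by ring
  have hgc : Continuous g := by
    rw [continuous_iff_continuousAt]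
    intro x
    have h1 : ∀ y, |g y - g x| ≤ 2 * N * (‖x‖ + ‖y‖ + R) * ‖y - x‖ := by
      intro y
      rw [abs_le]
      constructor
      · have h2 := hlip x y
        have h3 : 2 * N * (‖x‖ + R) * ‖x - y‖ ≤ 2 * N * (‖x‖ + ‖y‖ + R) * ‖y - x‖ := by
          rw [norm_sub_rev x y]
          have : 0 ≤ 2 * N * ‖y‖ * ‖y - x‖ := by positivity
          linarith
        linarith
      · have h2 := hlip y x
        have : 0 ≤ 2 * N * ‖x‖ * ‖y - x‖ := by positivity
        linarith
    have h2 : Tendsto (fun y => 2 * N * (‖x‖ + ‖y‖ + R) * ‖y - x‖) (𝓝 x)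
        (𝓝 (2 * N * (‖x‖ + ‖x‖ + R) * ‖x - x‖)) := by
      have : Continuous fun y : H => 2 * N * (‖x‖ + ‖y‖ + R) * ‖y - x‖ := by fun_prop
      exact this.tendsto x
    rw [sub_self, norm_zero, mul_zero] at h2
    have h3 : Tendsto (fun y => g y - g x) (𝓝 x) (𝓝 0) := squeeze_zero_norm h1 h2
    have h4 := h3.add_const (g x)
    rw [zero_add] at h4
    exact h4.congr fun y => by ring
  -- growth
  have hgrow : ∀ x, g 0 + c0 / 2 * ‖x‖ ^ 2 - 2 * N * R * ‖x‖ ≤ g x := by
    intro x
    set z : H := (1 / 2 : ℝ) • x with hz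
    have hxz : x = z + z := by
      rw [hz, ← add_smul]; norm_num
    have h1 := hge x (a z) (haA z)
    have h2 : ℓ (a z) x = g z + B x (a z) := by
      have e1 : B x (a z) = 2 * B z (a z) := by
        conv_lhs => rw [hxz]
        rw [map_add, ContinuousLinearMap.add_apply]; ring
      simp only [hgdef, hℓ]
      rw [e1]; ring
    have h3 : B x (a z) ≥ c0 / 2 * ‖x‖ ^ 2 - N * R * ‖x‖ := by
      have e1 : B x (a z) = B x z - B x (z - a z) := by rw [map_sub]; ring
      have e2 : B x z = 1 / 2 * B x x := by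
        rw [hz, map_smul, smul_eq_mul]
      have e3 : B x (z - a z) ≤ N * ‖x‖ * R := by
        refine (le_abs_self _).trans ((hBle _ _).trans ?_)
        exact mul_le_mul_of_nonneg_left (haR z) (by positivity)
      have e4 := hpos x
      rw [e1, e2]
      linarith
    have h4 := hge z (a 0) (haA 0)
    have h5 : ℓ (a 0) z = g 0 + B x (a 0) := by
      have e1 : B x (a 0) = 2 * B z (a 0) := by
        conv_lhs => rw [hxz]
        rw [map_add, ContinuousLinearMap.add_apply]; ring
      simp only [hgdef, hℓ]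
      rw [e1, map_zero, ContinuousLinearMap.zero_apply]; ring
    have h6 : -(N * ‖x‖ * R) ≤ B x (a 0) := by
      have e1 : ‖a 0‖ ≤ R := by
        have := haR 0
        rwa [zero_sub, norm_neg] at this
      have e2 := (hBle x (a 0)).trans (mul_le_mul_of_nonneg_left e1 (by positivity : 0 ≤ N * ‖x‖))
      linarith [(abs_le.1 e2).1]
    linarith
  have hbd : ∀ x, g x ≤ g 0 + 1 → ‖x‖ ≤ max 1 (2 * (1 + 2 * N * R) / c0) := by
    intro x hx
    rcases le_or_gt ‖x‖ 1 with h1 | h1
    · exact h1.trans (le_max_left _ _)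
    · refine le_trans ?_ (le_max_right _ _)
      rw [le_div_iff₀ hc0]
      have h2 := hgrow x
      have h3 : c0 / 2 * ‖x‖ ^ 2 ≤ (1 + 2 * N * R) * ‖x‖ := by
        have : (1:ℝ) ≤ 1 * ‖x‖ := by linarith
        linarith
      have h4 : c0 / 2 * ‖x‖ * ‖x‖ ≤ (1 + 2 * N * R) * ‖x‖ := by
        calc c0 / 2 * ‖x‖ * ‖x‖ = c0 / 2 * ‖x‖ ^ 2 := by ring
          _ ≤ _ := h3
      have h5 := le_of_mul_le_mul_right h4 (by linarith : 0 < ‖x‖)
      linarith
  obtain ⟨sq, hsq⟩ := hA.exists_eq_range ⟨a 0, haA 0⟩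
  have hsqA : ∀ n, sq n ∈ A := fun n => by rw [hsq]; exact Set.mem_range_self n
  set S : ℕ → H := fun n => (InnerProductSpace.toDual ℝ H).symm ((2 : ℝ) • B (sq n)) with hS
  have hSn : ∀ n x, ⟪S n, x⟫ = 2 * B x (sq n) := by
    intro n x
    rw [hS, InnerProductSpace.toDual_symm_apply, ContinuousLinearMap.smul_apply, smul_eq_mul, hB.symm]
  obtain ⟨x, hx1, hx2⟩ := core hinf g hgc (g 0 + 1) _ 0 (by linarith) hbd S
    (fun n => B (sq n) (sq n) + w (sq n)) (fun n x => by rw [hSn]; exact hge x _ (hsqA n))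
  have hax : a x ∈ Set.range sq := by rw [← hsq]; exact haA x
  obtain ⟨n, hn⟩ := hax
  have h1 := hx2 n
  rw [hSn, hn] at h1
  have h2 : g x = 2 * B x (a x) - (B (a x) (a x) + w (a x)) := rfl
  rw [hx1] at h2
  linarith

end core

/-- **A tiling of the separable Hilbert space by uniformly bounded convex bodies, for example by the translates
`T a = a + K` of a bounded convex body `K`, is never a Voronoi tiling or a Laguerre tiling of its sites**, for any
equivalent inner product and any weights. -/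
theorem result {H : Type*} [NormedAddCommGroup H] [InnerProductSpace ℝ H] [CompleteSpace H]
    [TopologicalSpace.SeparableSpace H] (hinf : ¬ FiniteDimensional ℝ H)
    (A : Set H) (T : H → Set H) (hT : IsBoundedTiling A T)
    (B : H →L[ℝ] H →L[ℝ] ℝ) (hB : IsEquivalentInner B) (w : H → ℝ) :
    ¬ IsLaguerre B w A T := by
  intro hL
  obtain ⟨R, hR⟩ := hT.bounded
  have hA : A.Countable := by
    refine Set.PairwiseDisjoint.countable_of_isOpen (s := fun a => interior (T a)) (a := A) ?_
      (fun a _ => isOpen_interior) (fun a ha => (hT.body a ha).2.2)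
    intro a ha b hb hab
    exact hT.disj a ha b hb hab
  refine no_power hinf B hB w A hA R fun x => ?_
  obtain ⟨a, ha, hx⟩ := hT.cover x
  refine ⟨a, ha, ?_, hL a ha x hx⟩
  have := hR a ha hx
  rwa [mem_closedBall, dist_eq_norm] at this

end Pool.Agent.Results.MP_3191e9_an.LaguerreTilings
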